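import Pool.Agent.W695.KH.Final
import Pool.Agent.H888R2.KB.N2
import Pool.Agent.H888R2.KB.G1

/-!
# The hyperplane conjecture of Kannan, Lovasz and Simonovits for bodies invariant under independent
rotations

Convex bodies in the space of `b`-tuples `(X_1, …, X_b)` of real `m × n` matrices, `n ≤ m`, `3 ≤ m`,
which are invariant under `(X_1, …, X_b) ↦ (g_1 X_1, …, g_b X_b)` with independent orthogonal `g_i`:
the best central hyperplane cut is at most `C (1 + log b / m)` times the perimeter of any set of half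
the volume. The constant is absolute for `b ≤ exp m`, in particular for one matrix (`b = 1`).

Method: the weak Poincare inequality of `Pool.Agent.H888R2.KB` for these classes, a new formalised
proof of the implication from Poincare to Cheeger inequalities by a discrete heat flow (Gaussian Euler
scheme with nonexpansive gradient steps, modules `KH`), the De Giorgi perimeter by mollification, and
the bound for the central section of an even log-concave marginal.
-/

set_option autoImplicit false

namespace Pool.Agent.Results.MP_dc1397_gt.IndependentRotations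

open MeasureTheory Set
open scoped ENNReal InnerProductSpace

/-- `b`-tuples of real `m × n` matrices with the Euclidean (Hilbert-Schmidt) structure -/
abbrev Tuples (b m n : ℕ) : Type := EuclideanSpace ℝ (Fin b × (Fin m × Fin n))

/-- the `i`-th matrix `X_i` of the tuple `x` -/
def block {b m n : ℕ} (i : Fin b) (x : Tuples b m n) : Matrix (Fin m) (Fin n) ℝ :=
  Matrix.of fun k l => x (i, (k, l))

/-- `Ω` contains with `(X_1, …, X_b)` all tuples in which one `X_i` is replaced by `g X_i`, `g`
orthogonal; so `Ω` is invariant under all `(X_1, …, X_b) ↦ (g_1 X_1, …, g_b X_b)`. -/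
def Invariant {b m n : ℕ} (Ω : Set (Tuples b m n)) : Prop :=
  ∀ i : Fin b, ∀ g ∈ Matrix.orthogonalGroup (Fin m) ℝ, ∀ x y : Tuples b m n,
    block i y = g * block i x → (∀ j, j ≠ i → block j y = block j x) → x ∈ Ω → y ∈ Ω

/-- the Lebesgue measure of a Euclidean space -/
noncomputable def lebesgue (F : Type) [NormedAddCommGroup F] [InnerProductSpace ℝ F]
    [FiniteDimensional ℝ F] [MeasurableSpace F] [BorelSpace F] : Measure F := volume

/-- the Lebesgue measure (of the Euclidean space `W`) of the section `Ω ∩ W` by a subspace `W` -/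
noncomputable def areaIn {F : Type} [NormedAddCommGroup F] [InnerProductSpace ℝ F]
    [FiniteDimensional ℝ F] [MeasurableSpace F] [BorelSpace F] (W : Submodule ℝ F) (Ω : Set F) :
    ℝ≥0∞ := lebesgue W {y : W | (y : F) ∈ Ω}

section defs

variable {κ : Type} [Fintype κ]

/-- an open, convex, bounded, nonempty set -/
structure Domain (Ω : Set (EuclideanSpace ℝ κ)) : Prop where
  op : IsOpen Ω
  conv : Convex ℝ Ω
  bdd : Bornology.IsBounded Ω
  ne : Ω.Nonempty

open Classical in
/-- divergence of a vector field on `ℝ^κ` -/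
noncomputable def divergence (X : EuclideanSpace ℝ κ → EuclideanSpace ℝ κ)
    (x : EuclideanSpace ℝ κ) : ℝ :=
  ∑ i, fderiv ℝ X x (EuclideanSpace.single i 1) i

/-- `C¹` vector fields with compact support in `Ω` and `‖X‖ ≤ 1` -/
structure Test (Ω : Set (EuclideanSpace ℝ κ)) (X : EuclideanSpace ℝ κ → EuclideanSpace ℝ κ) :
    Prop where
  diff : ContDiff ℝ 1 X
  comp : HasCompactSupport X
  sub : tsupport X ⊆ Ω
  le : ∀ x, ‖X x‖ ≤ 1

/-- the (De Giorgi) perimeter `P(E; Ω)` of `E` relative to the open set `Ω` -/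
noncomputable def perimeter (E Ω : Set (EuclideanSpace ℝ κ)) : ℝ≥0∞ :=
  ⨆ (X : EuclideanSpace ℝ κ → EuclideanSpace ℝ κ) (_ : Test Ω X),
    ENNReal.ofReal (∫ x in E, divergence X x)

/-- the area (Lebesgue measure in the hyperplane `a^⊥`) of the central section of `Ω` by `a^⊥` -/
noncomputable def sectionArea (Ω : Set (EuclideanSpace ℝ κ)) (a : EuclideanSpace ℝ κ) : ℝ≥0∞ :=
  areaIn (Submodule.span ℝ {a})ᗮ Ω

/-- some central hyperplane section has area at most `K P(E; Ω)` for every measurable `E ⊆ Ω` with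
`|E| = |Ω| / 2` -/
def HyperplaneBound (K : ℝ) (Ω : Set (EuclideanSpace ℝ κ)) : Prop :=
  ∃ a : EuclideanSpace ℝ κ, a ≠ 0 ∧ ∀ E : Set (EuclideanSpace ℝ κ), MeasurableSet E → E ⊆ Ω →
    volume E = volume Ω / 2 → sectionArea Ω a ≤ ENNReal.ofReal K * perimeter E Ω

/-- the perimeter is the one used in the proof -/
theorem perimeter_eq (E Ω : Set (EuclideanSpace ℝ κ)) :
    Pool.Agent.W695.KH.per E Ω = perimeter E Ω := by
  unfold perimeter Pool.Agent.W695.KH.per
  refine iSup_congr fun X => ?_
  refine iSup_congr_Prop ⟨fun h => ⟨h.1, h.2.1, h.2.2.1, h.2.2.2⟩,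
    fun h => ⟨h.diff, h.comp, h.sub, h.le⟩⟩ fun _ => rfl

end defs

open Pool.Agent.W695.KH Pool.Agent.H888R2.KB Pool.Agent.H888R2.KT in
theorem invariant_ap {b m n : ℕ} {Ω : Set (Tuples b m n)} (h : Invariant Ω) (i : Fin b)
    (g : Matrix (Fin m) (Fin m) ℝ) (hg : g ∈ Matrix.orthogonalGroup (Fin m) ℝ) (x : Tuples b m n)
    (hx : x ∈ Ω) : ap i (lml g) x ∈ Ω := by
  refine h i g hg x _ ?_ ?_ hx
  · ext k l
    show (ap i (lml g) x) (i, (k, l)) = _
    show (if (i, (k, l)).1 = i then _ else _) = _
    rw [if_pos rfl]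
    rfl
  · intro j hj
    ext k l
    show (ap i (lml g) x) (j, (k, l)) = _
    show (if (j, (k, l)).1 = i then _ else _) = _
    rw [if_neg hj]
    rfl

/-- an invariant set is symmetric -/
theorem symm {b m n : ℕ} {Ω : Set (Tuples b m n)} (h : Invariant Ω) (x : Tuples b m n)
    (hx : x ∈ Ω) : -x ∈ Ω := by
  have key : ∀ s : Finset (Fin b), (WithLp.toLp 2 fun p => if p.1 ∈ s then -x p else x p :
      Tuples b m n) ∈ Ω := by
    intro s
    induction s using Finset.induction_on with
    | empty => simpa using hx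
    | insert i s his ih =>
      refine h i (-1) ?_ _ _ ?_ ?_ ih
      · rw [Matrix.mem_orthogonalGroup_iff]
        simp
      · ext k l
        simp [block, his]
      · intro j hj
        ext k l
        simp [block, hj]
  have h1 := key Finset.univ
  convert h1 using 1
  ext p
  simp

/-- **The hyperplane conjecture for bodies invariant under independent rotations.** There is an
absolute constant `C` such that for all `b ≥ 1`, `m ≥ 3`, `1 ≤ n ≤ m` and every nonempty open bounded
convex set `Ω` of `b`-tuples of `m × n` matrices invariant under independent orthogonal matrices acting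
on the blocks (`Ω` is then symmetric, `Ω = -Ω`) there is a central hyperplane `a^⊥` such that for every
measurable `E ⊆ Ω` with `|E| = |Ω| / 2`
`H_{N-1}(Ω ∩ a^⊥) ≤ C (1 + log b / m) P(E; Ω)`. -/
theorem result : ∃ C : ℝ, 0 < C ∧ ∀ b m n : ℕ, 1 ≤ b → 3 ≤ m → 1 ≤ n → n ≤ m →
    ∀ Ω : Set (Tuples b m n), Domain Ω → Invariant Ω →
      HyperplaneBound (C * (1 + Real.log b / m)) Ω := by
  obtain ⟨C, hC, H⟩ := Pool.Agent.W695.KH.final Pool.Agent.W695.KH.main Pool.Agent.W695.KH.proj
  obtain ⟨C₂, hC₂, h₂⟩ := Pool.Agent.H888R2.KB.mainc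
  refine ⟨C * Real.sqrt C₂, by positivity, ?_⟩
  intro b m n hb hm hn hnm Ω hΩ hinv
  obtain ⟨hop, hco, hbd, hne⟩ := hΩ
  have hlog : 0 ≤ Real.log b := Real.log_nonneg (by exact_mod_cast hb)
  have hfac : 0 < 1 + Real.log b / m := by positivity
  have hne' : Nonempty (Fin b × (Fin m × Fin n)) := ⟨(⟨0, hb⟩, (⟨0, by omega⟩, ⟨0, hn⟩))⟩
  have h0 : (0 : Tuples b m n) ∈ Ω := by
    obtain ⟨x, hx⟩ := hne
    have h1 := hco hx (symm hinv x hx) (by norm_num : (0 : ℝ) ≤ 1 / 2)
      (by norm_num : (0 : ℝ) ≤ 1 / 2) (by norm_num)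
    simpa using h1
  obtain ⟨a, ha, h⟩ := H (Fin b × (Fin m × Fin n)) Ω hop hco hbd h0 (symm hinv)
    (C₂ * (1 + Real.log b / m) ^ 2) (by positivity) (by
      intro r A hr hr1 hA hprob hnn hmeas hlc hiso s hs hcov v hv hvb
      refine h₂ hb hm hn hnm _ ⟨hnn, hmeas, hlc, fun i g hg x => ?_⟩ hprob s hs hcov v hv hvb
      obtain ⟨e, he⟩ := Pool.Agent.H888R2.KB.ap_iso (n := n) i g hg
      rw [← he]
      refine hiso e (fun x => ?_) x
      constructor
      · intro hx
        have hg' : star g ∈ Matrix.orthogonalGroup (Fin m) ℝ := Unitary.star_mem hg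
        have h3 := invariant_ap hinv i (star g) hg' (e x) hx
        rw [he, Pool.Agent.H888R2.KB.G1x.apap i (star g) g
          ((Matrix.mem_unitaryGroup_iff').1 hg)] at h3
        exact h3
      · intro hx
        rw [he]
        exact invariant_ap hinv i g hg x hx)
  refine ⟨a, ha, fun E hE hEΩ hvol => ?_⟩
  have h4 := h E hE hEΩ hvol
  rw [perimeter_eq] at h4
  rw [Real.sqrt_mul hC₂.le, Real.sqrt_sq hfac.le, ← mul_assoc] at h4
  exact h4

end Pool.Agent.Results.MP_dc1397_gt.IndependentRotations
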