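import Pool.Agent.W695.KH.Final
import Pool.Agent.W695.KH.WrapC

/-!
# The hyperplane conjecture of Kannan, Lovasz and Simonovits for symmetric bodies of Hermitian
matrices invariant under conjugation

Symmetric convex bodies in the space of `q`-tuples `(X_1, …, X_q)` of real symmetric or complex
Hermitian `N × N` matrices, `3 ≤ N`, which are invariant under simultaneous conjugation
`(X_1, …, X_q) ↦ (U X_1 Uᴴ, …, U X_q Uᴴ)`: the best central hyperplane cut is at most `C q²` times the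
perimeter of any set of half the volume, with `C` absolute (independent of `N`).
-/

set_option autoImplicit false

namespace Pool.Agent.Results.MP_dc1397_gt.SimultaneousConjugation

open MeasureTheory Set
open scoped ENNReal InnerProductSpace Matrix

/-- `Φ` takes values in the Hermitian matrices -/
def TakesHerm {𝕜 : Type} [RCLike 𝕜] {N : ℕ} {ι : Type} [Fintype ι]
    (Φ : EuclideanSpace ℝ ι →ₗ[ℝ] Matrix (Fin N) (Fin N) 𝕜) : Prop := ∀ x, (Φ x)ᴴ = Φ x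

/-- every Hermitian matrix is a value of `Φ` -/
def OntoHerm {𝕜 : Type} [RCLike 𝕜] {N : ℕ} {ι : Type} [Fintype ι]
    (Φ : EuclideanSpace ℝ ι →ₗ[ℝ] Matrix (Fin N) (Fin N) 𝕜) : Prop :=
  ∀ A : Matrix (Fin N) (Fin N) 𝕜, Aᴴ = A → ∃ x, Φ x = A

/-- `Φ` preserves the Hilbert-Schmidt norm -/
def PreservesNorm {𝕜 : Type} [RCLike 𝕜] {N : ℕ} {ι : Type} [Fintype ι]
    (Φ : EuclideanSpace ℝ ι →ₗ[ℝ] Matrix (Fin N) (Fin N) 𝕜) : Prop :=
  ∀ x, ∑ i, ∑ j, ‖Φ x i j‖ ^ 2 = ‖x‖ ^ 2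

/-- `Φ` is a linear isometry of the Euclidean space `ℝ^ι` onto the real vector space of Hermitian
`N × N` matrices over `𝕜` with the Hilbert-Schmidt norm. -/
def HermFrame {𝕜 : Type} [RCLike 𝕜] {N : ℕ} {ι : Type} [Fintype ι]
    (Φ : EuclideanSpace ℝ ι →ₗ[ℝ] Matrix (Fin N) (Fin N) 𝕜) : Prop :=
  TakesHerm Φ ∧ OntoHerm Φ ∧ PreservesNorm Φ

/-- the `j`-th component of a `q`-tuple of vectors of `ℝ^ι` -/
def comp {q : ℕ} {ι : Type} (j : Fin q) (x : EuclideanSpace ℝ (Fin q × ι)) : EuclideanSpace ℝ ι :=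
  WithLp.toLp 2 fun i => x (j, i)

/-- `Ω` (a set of `q`-tuples of Hermitian matrices `X_j = Φ (comp j x)`) is invariant under the
simultaneous conjugations `X_j ↦ U X_j Uᴴ`, `j = 1, …, q`, for all unitary (orthogonal if `𝕜 = ℝ`)
matrices `U`. -/
def Invariant {𝕜 : Type} [RCLike 𝕜] {N q : ℕ} {ι : Type} [Fintype ι]
    (Φ : EuclideanSpace ℝ ι →ₗ[ℝ] Matrix (Fin N) (Fin N) 𝕜)
    (Ω : Set (EuclideanSpace ℝ (Fin q × ι))) : Prop :=
  ∀ U ∈ Matrix.unitaryGroup (Fin N) 𝕜, ∀ x y,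
    (∀ j, Φ (comp j y) = U * Φ (comp j x) * Uᴴ) → x ∈ Ω → y ∈ Ω

/-- the Lebesgue measure of a Euclidean space -/
noncomputable def lebesgue (F : Type) [NormedAddCommGroup F] [InnerProductSpace ℝ F]
    [FiniteDimensional ℝ F] [MeasurableSpace F] [BorelSpace F] : Measure F := volume

/-- the Lebesgue measure (of the Euclidean space `W`) of the section `Ω ∩ W` by a subspace `W` -/
noncomputable def areaIn {F : Type} [NormedAddCommGroup F] [InnerProductSpace ℝ F]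
    [FiniteDimensional ℝ F] [MeasurableSpace F] [BorelSpace F] (W : Submodule ℝ F) (Ω : Set F) :
    ℝ≥0∞ := lebesgue W {y : W | (y : F) ∈ Ω}

section defs

variable {κ : Type} [Fintype κ]

/-- an open, convex, bounded, nonempty set -/
structure Domain (Ω : Set (EuclideanSpace ℝ κ)) : Prop where
  op : IsOpen Ω
  conv : Convex ℝ Ω
  bdd : Bornology.IsBounded Ω
  ne : Ω.Nonempty

open Classical in
/-- divergence of a vector field on `ℝ^κ` -/
noncomputable def divergence (X : EuclideanSpace ℝ κ → EuclideanSpace ℝ κ)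
    (x : EuclideanSpace ℝ κ) : ℝ :=
  ∑ i, fderiv ℝ X x (EuclideanSpace.single i 1) i

/-- `C¹` vector fields with compact support in `Ω` and `‖X‖ ≤ 1` -/
structure Test (Ω : Set (EuclideanSpace ℝ κ)) (X : EuclideanSpace ℝ κ → EuclideanSpace ℝ κ) :
    Prop where
  diff : ContDiff ℝ 1 X
  comp : HasCompactSupport X
  sub : tsupport X ⊆ Ω
  le : ∀ x, ‖X x‖ ≤ 1

/-- the (De Giorgi) perimeter `P(E; Ω)` of `E` relative to the open set `Ω` -/
noncomputable def perimeter (E Ω : Set (EuclideanSpace ℝ κ)) : ℝ≥0∞ :=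
  ⨆ (X : EuclideanSpace ℝ κ → EuclideanSpace ℝ κ) (_ : Test Ω X),
    ENNReal.ofReal (∫ x in E, divergence X x)

/-- the area (Lebesgue measure in the hyperplane `a^⊥`) of the central section of `Ω` by `a^⊥` -/
noncomputable def sectionArea (Ω : Set (EuclideanSpace ℝ κ)) (a : EuclideanSpace ℝ κ) : ℝ≥0∞ :=
  areaIn (Submodule.span ℝ {a})ᗮ Ω

/-- some central hyperplane section has area at most `K P(E; Ω)` for every measurable `E ⊆ Ω` with
`|E| = |Ω| / 2` -/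
def HyperplaneBound (K : ℝ) (Ω : Set (EuclideanSpace ℝ κ)) : Prop :=
  ∃ a : EuclideanSpace ℝ κ, a ≠ 0 ∧ ∀ E : Set (EuclideanSpace ℝ κ), MeasurableSet E → E ⊆ Ω →
    volume E = volume Ω / 2 → sectionArea Ω a ≤ ENNReal.ofReal K * perimeter E Ω

/-- the perimeter is the one used in the proof -/
theorem perimeter_eq (E Ω : Set (EuclideanSpace ℝ κ)) :
    Pool.Agent.W695.KH.per E Ω = perimeter E Ω := by
  unfold perimeter Pool.Agent.W695.KH.per
  refine iSup_congr fun X => ?_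
  refine iSup_congr_Prop ⟨fun h => ⟨h.1, h.2.1, h.2.2.1, h.2.2.2⟩,
    fun h => ⟨h.diff, h.comp, h.sub, h.le⟩⟩ fun _ => rfl

end defs

theorem invariant_di {𝕜 : Type} [RCLike 𝕜] {N q : ℕ} {ι : Type} [Fintype ι]
    {Φ : EuclideanSpace ℝ ι →ₗ[ℝ] Matrix (Fin N) (Fin N) 𝕜} (hΦ : Pool.Agent.H888R2.KC.Fr Φ)
    {Ω : Set (EuclideanSpace ℝ (Fin q × ι))} (h : Invariant Φ Ω) (U : Matrix (Fin N) (Fin N) 𝕜)
    (hU : U ∈ Matrix.unitaryGroup (Fin N) 𝕜) (x : EuclideanSpace ℝ (Fin q × ι)) (hx : x ∈ Ω) :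
    Pool.Agent.H888R2.KT.di q (Pool.Agent.H888R2.KC.cj Φ U) x ∈ Ω := by
  refine h U hU x _ (fun j => ?_) hx
  have h1 : Pool.Agent.H888R2.KT.cp j (Pool.Agent.H888R2.KT.di q
      (Pool.Agent.H888R2.KC.cj Φ U) x) =
      Pool.Agent.H888R2.KC.cj Φ U (Pool.Agent.H888R2.KT.cp j x) :=
    Pool.Agent.H888R2.KT.C1bx.cp_di _ x j
  have h2 := Pool.Agent.H888R2.KC.Phi_cj hΦ U (Pool.Agent.H888R2.KT.cp j x)
  rw [← h1] at h2
  exact h2

/-- **The hyperplane conjecture for symmetric convex bodies of tuples of Hermitian matrices invariant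
under simultaneous conjugation.** There is an absolute constant `C` such that for `𝕜 = ℝ` or `ℂ`, all
`N ≥ 3`, `q ≥ 1`, every linear isometric parametrisation `Φ` of the Hermitian `N × N` matrices over
`𝕜`, and every nonempty open bounded convex set `Ω = -Ω` of `q`-tuples invariant under simultaneous
conjugation by unitary matrices there is a central hyperplane `a^⊥` such that for every measurable
`E ⊆ Ω` with `|E| = |Ω| / 2`: `H_{n-1}(Ω ∩ a^⊥) ≤ C q² P(E; Ω)`. -/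
theorem result : ∃ C : ℝ, 0 < C ∧ ∀ (𝕜 : Type) [RCLike 𝕜] (N q : ℕ), 3 ≤ N → 1 ≤ q →
    ∀ (ι : Type) [Fintype ι] (Φ : EuclideanSpace ℝ ι →ₗ[ℝ] Matrix (Fin N) (Fin N) 𝕜),
    HermFrame Φ → ∀ Ω : Set (EuclideanSpace ℝ (Fin q × ι)), Domain Ω → (∀ x ∈ Ω, -x ∈ Ω) →
    Invariant Φ Ω → HyperplaneBound (C * q ^ 2) Ω := by
  obtain ⟨C, hC, H⟩ := Pool.Agent.W695.KH.final Pool.Agent.W695.KH.main Pool.Agent.W695.KH.proj
  obtain ⟨C₂, hC₂, h₂⟩ := Pool.Agent.W695.KH.conj_weak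
  refine ⟨C * Real.sqrt C₂, by positivity, ?_⟩
  intro 𝕜 _ N q hN hq ι _ Φ hΦ' Ω hΩ hsym hinv
  obtain ⟨hop, hco, hbd, hne⟩ := hΩ
  have hΦ : Pool.Agent.H888R2.KC.Fr Φ := ⟨hΦ'.1, hΦ'.2.1, hΦ'.2.2⟩
  have hq0 : (0 : ℝ) < q := by exact_mod_cast hq
  have hι : Nonempty ι := Pool.Agent.W695.KH.nonempty_of_frame hΦ hN
  have hne' : Nonempty (Fin q × ι) := ⟨(⟨0, hq⟩, hι.some)⟩
  have h0 : (0 : EuclideanSpace ℝ (Fin q × ι)) ∈ Ω := by
    obtain ⟨x, hx⟩ := hne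
    have h1 := hco hx (hsym x hx) (by norm_num : (0 : ℝ) ≤ 1 / 2)
      (by norm_num : (0 : ℝ) ≤ 1 / 2) (by norm_num)
    simpa using h1
  obtain ⟨a, ha, h⟩ := H (Fin q × ι) Ω hop hco hbd h0 hsym
    (C₂ * ((q : ℝ) ^ 2) ^ 2) (by positivity) (fun r A hr hr1 hA hprob hnn hmeas hlc hiso =>
      h₂ hΦ hN hq _ (Pool.Agent.W695.KH.di_dens hΦ (invariant_di hΦ hinv) _ hnn hmeas hlc hiso)
        hprob)
  refine ⟨a, ha, fun E hE hEΩ hvol => ?_⟩
  have h4 := h E hE hEΩ hvol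
  rw [perimeter_eq] at h4
  rw [Real.sqrt_mul hC₂.le, Real.sqrt_sq (by positivity), ← mul_assoc] at h4
  exact h4

end Pool.Agent.Results.MP_dc1397_gt.SimultaneousConjugation
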